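import Mathlib

set_option autoImplicit false

namespace Pool.Agent.Results.MP_64150f_an.UniformlyOpen

open Set Metric Topology

/-- The Lebesgue covering dimension of `X` is at most `n`: every finite open cover of `X` has a finite open
refinement which is a cover of `X` and of which each point of `X` lies in at most `n + 1` members. -/
def CoveringDimLE (X : Type*) [TopologicalSpace X] (n : ℕ) : Prop :=
  ∀ (m : ℕ) (U : Fin m → Set X), (∀ i, IsOpen (U i)) → (⋃ i, U i) = univ →
    ∃ (k : ℕ) (V : Fin k → Set X), (∀ j, IsOpen (V j)) ∧ (⋃ j, V j) = univ ∧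
      (∀ j, ∃ i, V j ⊆ U i) ∧ ∀ x, {j | x ∈ V j}.ncard ≤ n + 1

theorem exists_one (B : Finset ℝ) (c : ℂ) (ε : ℝ) (hε : 0 < ε) :
    ∃ w : ℂ, ‖w - c‖ < ε ∧ w.re ≠ 0 ∧ w.im / w.re ∉ B := by
  obtain ⟨r, hr0, hr⟩ : ∃ r : ℝ, r ≠ 0 ∧ |r - c.re| ≤ ε / 4 := by
    by_cases h : c.re = 0
    · exact ⟨ε / 4, by positivity, by rw [h, sub_zero, abs_of_pos (by positivity)]⟩
    · exact ⟨c.re, h, by rw [sub_self, abs_zero]; positivity⟩
  have hinj : Function.Injective fun s : ℝ => (c.im + s) / r := by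
    intro s t hst
    simp only at hst
    rw [div_left_inj' hr0] at hst
    linarith
  have hinf : ((fun s : ℝ => (c.im + s) / r) '' Ioo 0 (ε / 4)).Infinite :=
    (Ioo_infinite (by positivity)).image hinj.injOn
  obtain ⟨_, ⟨s, hs, rfl⟩, hsB⟩ := hinf.exists_notMem_finset B
  refine ⟨⟨r, c.im + s⟩, ?_, hr0, hsB⟩
  calc ‖(⟨r, c.im + s⟩ : ℂ) - c‖ ≤ |((⟨r, c.im + s⟩ : ℂ) - c).re| + |((⟨r, c.im + s⟩ : ℂ) - c).im| :=
        Complex.norm_le_abs_re_add_abs_im _
    _ = |r - c.re| + |s| := by simp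
    _ < ε := by
      rw [abs_of_pos hs.1]
      linarith [hs.2]

theorem exists_slopes (k : ℕ) (ε : ℝ) (hε : 0 < ε) (c : Fin k → ℂ) :
    ∃ z : Fin k → ℂ, (∀ i, ‖z i - c i‖ < ε) ∧ (∀ i, (z i).re ≠ 0) ∧
      ∀ i j, i ≠ j → (z i).im / (z i).re ≠ (z j).im / (z j).re := by
  induction k with
  | zero => exact ⟨fun i => i.elim0, fun i => i.elim0, fun i => i.elim0, fun i => i.elim0⟩
  | succ k ih =>
    obtain ⟨z, h1, h2, h3⟩ := ih (fun i => c i.succ)
    obtain ⟨w, hw1, hw2, hw3⟩ :=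
      exists_one (Finset.univ.image fun i => (z i).im / (z i).re) (c 0) ε hε
    have hw4 : ∀ i, w.im / w.re ≠ (z i).im / (z i).re := by
      intro i hi
      exact hw3 (Finset.mem_image.2 ⟨i, Finset.mem_univ _, hi.symm⟩)
    refine ⟨Fin.cons w z, ?_, ?_, ?_⟩
    · intro i
      refine Fin.cases ?_ (fun i => ?_) i
      · simpa using hw1
      · simpa using h1 i
    · intro i
      refine Fin.cases ?_ (fun i => ?_) i
      · simpa using hw2
      · simpa using h2 i
    · intro i j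
      refine Fin.cases ?_ (fun i => ?_) i <;> refine Fin.cases ?_ (fun j => ?_) j
      · intro h; exact absurd rfl h
      · intro _; simpa using hw4 j
      · intro _; simpa using (hw4 i).symm
      · intro h
        have : i ≠ j := fun hij => h (by rw [hij])
        simpa using h3 i j this

section main

variable {X : Type*} [TopologicalSpace X] [CompactSpace X] [T2Space X]

/-- nowhere vanishing functions are dense -/
theorem exists_nonvanishing (hd : CoveringDimLE X 1) (F : C(X, ℂ)) (ε : ℝ) (hε : 0 < ε) :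
    ∃ G : C(X, ℂ), (∀ x, G x ≠ 0) ∧ ∀ x, ‖G x - F x‖ < ε := by
  obtain ⟨t, ht⟩ : ∃ t : Finset X, (⋃ a ∈ t, {x | ‖F x - F a‖ < ε / 3}) = univ := by
    obtain ⟨t, -, ht⟩ := isCompact_univ.elim_nhds_subcover (fun a => {x | ‖F x - F a‖ < ε / 3})
      (fun a _ => by
        apply IsOpen.mem_nhds
        · exact isOpen_lt (by fun_prop) continuous_const
        · simp; positivity)
    exact ⟨t, univ_subset_iff.1 ht⟩
  let e : t ≃ Fin t.card := t.equivFin
  obtain ⟨k, V, hVo, hVc, hVr, hVn⟩ := hd t.card (fun i => {x | ‖F x - F (e.symm i : X)‖ < ε / 3})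
    (fun i => isOpen_lt (by fun_prop) continuous_const) (by
      apply univ_subset_iff.1
      intro x _
      have hx : x ∈ ⋃ a ∈ t, {x | ‖F x - F a‖ < ε / 3} := by rw [ht]; trivial
      simp only [mem_iUnion, exists_prop] at hx
      obtain ⟨a, ha, hxa⟩ := hx
      refine mem_iUnion.2 ⟨e ⟨a, ha⟩, ?_⟩
      simpa using hxa)
  choose r hr using hVr
  obtain ⟨f, hf⟩ := PartitionOfUnity.exists_isSubordinate (isClosed_univ : IsClosed (univ : Set X))
    V hVo hVc.ge
  obtain ⟨z, hz1, hz2, hz3⟩ := exists_slopes k (ε / 3) (by positivity) fun j => F (e.symm (r j) : X)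
  have hsum : ∀ x, ∑ j, f j x = 1 := by
    intro x
    rw [← finsum_eq_sum_of_fintype]
    exact f.sum_eq_one (mem_univ x)
  have hmem : ∀ x j, f j x ≠ 0 → x ∈ V j := by
    intro x j hj
    exact hf j (subset_tsupport _ hj)
  refine ⟨⟨fun x => ∑ j, (f j x : ℂ) * z j, by fun_prop⟩, ?_, ?_⟩
  · intro x hx
    simp only [ContinuousMap.coe_mk] at hx
    -- choose an index with positive weight
    obtain ⟨j0, hj0⟩ : ∃ j, f j x ≠ 0 := by
      by_contra hcon
      push Not at hcon
      have := hsum x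
      simp [hcon] at this
    by_cases hcase : ∃ l, l ≠ j0 ∧ f l x ≠ 0
    · obtain ⟨l, hl, hlx⟩ := hcase
      have hother : ∀ j, j ≠ j0 → j ≠ l → f j x = 0 := by
        intro j hj hjl
        by_contra hjx
        have hsub : ({j0, l, j} : Set (Fin k)) ⊆ {j | x ∈ V j} := by
          intro i hi
          simp only [mem_insert_iff, mem_singleton_iff] at hi
          rcases hi with rfl | rfl | rfl
          · exact hmem x _ hj0
          · exact hmem x _ hlx
          · exact hmem x _ hjx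
        have hcard : ({j0, l, j} : Set (Fin k)).ncard = 3 := by
          rw [Set.ncard_eq_toFinset_card']
          simp only [toFinset_insert, toFinset_singleton]
          rw [Finset.card_insert_of_notMem, Finset.card_insert_of_notMem, Finset.card_singleton]
          · simpa using fun h => hjl h.symm
          · simp only [Finset.mem_insert, Finset.mem_singleton, not_or]
            exact ⟨fun h => hl h.symm, fun h => hj h.symm⟩
        have := Set.ncard_le_ncard hsub (Set.toFinite _)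
        have h2 := hVn x
        omega
      have hs : (f j0 x : ℂ) * z j0 + (f l x : ℂ) * z l = 0 := by
        rw [← hx]
        symm
        rw [← Finset.sum_subset (Finset.subset_univ ({j0, l} : Finset (Fin k)))]
        · rw [Finset.sum_pair (fun h => hl h.symm)]
        · intro j _ hj
          simp only [Finset.mem_insert, Finset.mem_singleton, not_or] at hj
          rw [hother j hj.1 hj.2]
          simp
      have hre := congrArg Complex.re hs
      have him := congrArg Complex.im hs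
      simp only [Complex.add_re, Complex.mul_re, Complex.ofReal_re, Complex.ofReal_im, zero_mul,
        sub_zero, Complex.zero_re, Complex.add_im, Complex.mul_im, add_zero, Complex.zero_im] at hre him
      have h1 := hz3 j0 l (fun h => hl h.symm)
      apply h1
      rw [div_eq_div_iff (hz2 j0) (hz2 l)]
      have : f j0 x * ((z j0).im * (z l).re - (z l).im * (z j0).re) = 0 := by
        linear_combination (z l).re * him - (z l).im * hre
      rcases mul_eq_zero.1 this with h | h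
      · exact absurd h hj0
      · linarith
    · push Not at hcase
      have hs : (f j0 x : ℂ) * z j0 = 0 := by
        rw [← hx]
        symm
        apply Finset.sum_eq_single_of_mem j0 (Finset.mem_univ _)
        intro j _ hj
        rw [hcase j hj]
        simp
      have hre := congrArg Complex.re hs
      simp only [Complex.mul_re, Complex.ofReal_re, Complex.ofReal_im, zero_mul, sub_zero,
        Complex.zero_re] at hre
      rcases mul_eq_zero.1 hre with h | h
      · exact hj0 h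
      · exact hz2 j0 h
  · intro x
    simp only [ContinuousMap.coe_mk]
    have h1 : ∑ j, (f j x : ℂ) * z j - F x = ∑ j, (f j x : ℂ) * (z j - F x) := by
      simp only [mul_sub]
      rw [Finset.sum_sub_distrib, ← Finset.sum_mul]
      have : ∑ j, (f j x : ℂ) = 1 := by
        rw [← Complex.ofReal_sum, hsum x, Complex.ofReal_one]
      rw [this, one_mul]
    rw [h1]
    calc ‖∑ j, (f j x : ℂ) * (z j - F x)‖ ≤ ∑ j, ‖(f j x : ℂ) * (z j - F x)‖ := norm_sum_le _ _
      _ ≤ ∑ j, f j x * (2 * ε / 3) := by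
        apply Finset.sum_le_sum
        intro j _
        rw [norm_mul, Complex.norm_real, Real.norm_eq_abs, abs_of_nonneg (f.nonneg j x)]
        by_cases hj : f j x = 0
        · rw [hj]; simp
        · apply mul_le_mul_of_nonneg_left _ (f.nonneg j x)
          have hx := hr j (hmem x j hj)
          simp only [Set.mem_ofPred_eq] at hx
          have hzj := hz1 j
          calc ‖z j - F x‖ = ‖(z j - F (e.symm (r j) : X)) - (F x - F (e.symm (r j) : X))‖ := by
                congr 1; ring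
            _ ≤ ‖z j - F (e.symm (r j) : X)‖ + ‖F x - F (e.symm (r j) : X)‖ := norm_sub_le _ _
            _ ≤ 2 * ε / 3 := by linarith
      _ = 2 * ε / 3 := by rw [← Finset.sum_mul, hsum x, one_mul]
      _ < ε := by linarith

/-- a continuous function without zeros on a closed set extends from it without zeros -/
theorem exists_extension (hd : CoveringDimLE X 1) (f1 : C(X, ℂ)) (A : Set X) (hA : IsClosed A)
    (hne : ∀ x ∈ A, f1 x ≠ 0) : ∃ G : C(X, ℂ), (∀ x, G x ≠ 0) ∧ ∀ x ∈ A, G x = f1 x := by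
  obtain ⟨c, hc, hcA⟩ : ∃ c : ℝ, 0 < c ∧ ∀ x ∈ A, c ≤ ‖f1 x‖ := by
    by_cases hAe : A.Nonempty
    · obtain ⟨x0, hx0, hmin⟩ := hA.isCompact.exists_isMinOn hAe
        (f := fun x => ‖f1 x‖) (by fun_prop)
      exact ⟨‖f1 x0‖, norm_pos_iff.2 (hne x0 hx0), fun x hx => hmin hx⟩
    · exact ⟨1, one_pos, fun x hx => absurd ⟨x, hx⟩ hAe⟩
  obtain ⟨G0, hG0, hG0'⟩ := exists_nonvanishing hd f1 (c / 2) (by positivity)
  have hslit : ∀ x ∈ A, f1 x / G0 x ∈ Complex.slitPlane := by
    intro x hx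
    have h1 := hcA x hx
    have h2 := hG0' x
    have h3 : c / 2 < ‖G0 x‖ := by
      have : ‖f1 x‖ ≤ ‖G0 x‖ + ‖G0 x - f1 x‖ := by
        calc ‖f1 x‖ = ‖G0 x - (G0 x - f1 x)‖ := by congr 1; ring
          _ ≤ _ := norm_sub_le _ _
      linarith
    have h4 : f1 x / G0 x = 1 + (f1 x - G0 x) / G0 x := by
      have := hG0 x
      field_simp
      ring
    rw [h4]
    apply Complex.mem_slitPlane_of_norm_lt_one
    rw [norm_div, div_lt_one (by linarith), ← norm_neg]
    have : -(f1 x - G0 x) = G0 x - f1 x := by ring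
    rw [this]
    linarith
  let L : C(A, ℂ) := ⟨fun x => Complex.log (f1 x / G0 x), by
    apply Continuous.clog
    · apply Continuous.div
      · fun_prop
      · fun_prop
      · intro x; exact hG0 x
    · intro x; exact hslit x x.2⟩
  obtain ⟨L', hL'⟩ := L.exists_restrict_eq hA
  refine ⟨⟨fun x => G0 x * Complex.exp (L' x), by fun_prop⟩, ?_, ?_⟩
  · intro x
    exact mul_ne_zero (hG0 x) (Complex.exp_ne_zero _)
  · intro x hx
    have h1 : L' x = Complex.log (f1 x / G0 x) := by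
      have := DFunLike.congr_fun hL' ⟨x, hx⟩
      simpa [L] using this
    simp only [ContinuousMap.coe_mk]
    rw [h1, Complex.exp_log (div_ne_zero (hne x hx) (hG0 x))]
    field_simp [hG0 x]

/-- exact factorization near a given one when all functions are nonvanishing -/
theorem key (hd : CoveringDimLE X 1) (f g h : C(X, ℂ)) (hg : ∀ x, g x ≠ 0)
    (hh : ∀ x, h x ≠ 0) (η : ℝ) (hη : 0 < η) (hδ : ∀ x, ‖h x - f x * g x‖ ≤ η ^ 2 / 4) :
    ∃ f' g' : C(X, ℂ), f' * g' = h ∧ (∀ x, ‖f' x - f x‖ ≤ 5 * η) ∧ ∀ x, ‖g' x - g x‖ ≤ 5 * η := by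
  let t : X → ℝ := fun x => max (‖g x‖ - η) 0 / max η (max (‖g x‖ - η) 0 + max (‖f x‖ - η) 0)
  have htc : Continuous t := by
    apply Continuous.div
    · fun_prop
    · fun_prop
    · intro x
      exact (lt_of_lt_of_le hη (le_max_left _ _)).ne'
  have ht0 : ∀ x, 0 ≤ t x := fun x => div_nonneg (le_max_right _ _) (hη.le.trans (le_max_left _ _))
  have ht1 : ∀ x, t x ≤ 1 := by
    intro x
    apply div_le_one_of_le₀
    · refine le_trans ?_ (le_max_right _ _)
      linarith [le_max_right (‖f x‖ - η) 0]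
    · exact hη.le.trans (le_max_left _ _)
  have htg : ∀ x, ‖g x‖ ≤ η → t x = 0 := by
    intro x hx
    simp only [t]
    rw [max_eq_right (by linarith : ‖g x‖ - η ≤ 0), zero_div]
  have htf : ∀ x, ‖f x‖ ≤ η → 2 * η ≤ ‖g x‖ → t x = 1 := by
    intro x hx hx'
    simp only [t]
    rw [max_eq_right (by linarith : ‖f x‖ - η ≤ 0), add_zero, max_eq_left (by linarith : 0 ≤ ‖g x‖ - η),
      max_eq_right (by linarith : η ≤ ‖g x‖ - η), div_self (by linarith)]
  let f1 : C(X, ℂ) := ⟨fun x => f x + (t x : ℂ) * ((h x - f x * g x) / g x), by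
    apply Continuous.add (by fun_prop)
    apply Continuous.mul (by fun_prop)
    exact Continuous.div (by fun_prop) (by fun_prop) hg⟩
  have hf1 : ∀ x, f1 x = f x + (t x : ℂ) * ((h x - f x * g x) / g x) := fun x => rfl
  have F1 : ∀ x, ‖f1 x - f x‖ ≤ η / 4 := by
    intro x
    rw [hf1, add_sub_cancel_left]
    by_cases hgx : ‖g x‖ ≤ η
    · rw [htg x hgx]
      simp
      positivity
    · push Not at hgx
      rw [norm_mul, norm_div, Complex.norm_real, Real.norm_eq_abs, abs_of_nonneg (ht0 x)]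
      have h1 : ‖h x - f x * g x‖ / ‖g x‖ ≤ η / 4 := by
        rw [div_le_iff₀ (by linarith)]
        nlinarith [hδ x]
      calc t x * (‖h x - f x * g x‖ / ‖g x‖) ≤ 1 * (‖h x - f x * g x‖ / ‖g x‖) :=
            mul_le_mul_of_nonneg_right (ht1 x) (by positivity)
        _ ≤ η / 4 := by rw [one_mul]; exact h1
  have hsub : ∀ x, h x - f1 x * g x = (1 - t x : ℂ) * (h x - f x * g x) := by
    intro x
    rw [hf1]
    have := hg x
    field_simp
    ring
  let A : Set X := {x | 2 * η ≤ ‖f x‖} ∪ {x | 2 * η ≤ ‖g x‖}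
  have hA : IsClosed A := (isClosed_le continuous_const (by fun_prop)).union
    (isClosed_le continuous_const (by fun_prop))
  have F2 : ∀ x ∈ A, ‖h x - f1 x * g x‖ ≤ ‖f1 x‖ * (η / 2) := by
    intro x hx
    by_cases hfx : ‖f x‖ ≤ η
    · have hgx : 2 * η ≤ ‖g x‖ := by
        rcases hx with hx | hx
        · have : 2 * η ≤ ‖f x‖ := hx
          linarith
        · exact hx
      rw [hsub, htf x hfx hgx]
      simp
      positivity
    · push Not at hfx
      rw [hsub, norm_mul]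
      have h1 : ‖(1 - t x : ℂ)‖ ≤ 1 := by
        have : (1 - t x : ℂ) = ((1 - t x : ℝ) : ℂ) := by push_cast; ring
        rw [this, Complex.norm_real, Real.norm_eq_abs, abs_of_nonneg (by linarith [ht1 x])]
        linarith [ht0 x]
      have h2 : 3 * η / 4 ≤ ‖f1 x‖ := by
        have : ‖f x‖ ≤ ‖f1 x‖ + ‖f1 x - f x‖ := by
          calc ‖f x‖ = ‖f1 x - (f1 x - f x)‖ := by congr 1; ring
            _ ≤ _ := norm_sub_le _ _
        linarith [F1 x]
      calc ‖(1 - t x : ℂ)‖ * ‖h x - f x * g x‖ ≤ 1 * (η ^ 2 / 4) :=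
            mul_le_mul h1 (hδ x) (norm_nonneg _) zero_le_one
        _ ≤ ‖f1 x‖ * (η / 2) := by nlinarith
  have F3 : ∀ x ∈ A, f1 x ≠ 0 := by
    intro x hx h0
    have := F2 x hx
    rw [h0, zero_mul, sub_zero, norm_zero, zero_mul] at this
    exact hh x (norm_le_zero_iff.1 this)
  obtain ⟨G, hG, hGA⟩ := exists_extension hd f1 A hA F3
  have hden : ∀ x, 0 < ‖g x‖ + η / 2 := fun x => by positivity
  let ρ : X → ℝ := fun x => max ‖f1 x‖ (‖h x‖ / (‖g x‖ + η / 2))
  have hρc : Continuous ρ := by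
    apply Continuous.max (by fun_prop)
    exact Continuous.div (by fun_prop) (by fun_prop) fun x => (hden x).ne'
  have hρpos : ∀ x, 0 < ρ x := fun x =>
    lt_of_lt_of_le (div_pos (norm_pos_iff.2 (hh x)) (hden x)) (le_max_right _ _)
  have hρA : ∀ x ∈ A, ρ x = ‖f1 x‖ := by
    intro x hx
    apply max_eq_left
    rw [div_le_iff₀ (hden x)]
    have h1 : ‖h x‖ ≤ ‖h x - f1 x * g x‖ + ‖f1 x * g x‖ := by
      calc ‖h x‖ = ‖(h x - f1 x * g x) + f1 x * g x‖ := by congr 1; ring
        _ ≤ _ := norm_add_le _ _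
    rw [norm_mul] at h1
    nlinarith [F2 x hx]
  let f' : C(X, ℂ) := ⟨fun x => ((ρ x / ‖G x‖ : ℝ) : ℂ) * G x, by
    apply Continuous.mul _ (by fun_prop)
    apply Complex.continuous_ofReal.comp
    exact Continuous.div hρc (by fun_prop) fun x => (norm_pos_iff.2 (hG x)).ne'⟩
  have hf' : ∀ x, f' x = ((ρ x / ‖G x‖ : ℝ) : ℂ) * G x := fun x => rfl
  have hf'n : ∀ x, ‖f' x‖ = ρ x := by
    intro x
    have := norm_pos_iff.2 (hG x)
    rw [hf', norm_mul, Complex.norm_real, Real.norm_eq_abs,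
      abs_of_nonneg (div_nonneg (hρpos x).le this.le)]
    field_simp
  have hf'0 : ∀ x, f' x ≠ 0 := by
    intro x
    rw [← norm_pos_iff, hf'n]
    exact hρpos x
  have hf'A : ∀ x ∈ A, f' x = f1 x := by
    intro x hx
    have h1 : G x = f1 x := hGA x hx
    rw [hf', hρA x hx, h1, div_self (norm_pos_iff.2 (F3 x hx)).ne']
    simp
  let g' : C(X, ℂ) := ⟨fun x => h x / f' x, Continuous.div (by fun_prop) (by fun_prop) hf'0⟩
  have hg' : ∀ x, g' x = h x / f' x := fun x => rfl
  refine ⟨f', g', ?_, ?_, ?_⟩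
  · ext x
    rw [ContinuousMap.mul_apply, hg']
    field_simp [hf'0 x]
  · intro x
    by_cases hx : x ∈ A
    · rw [hf'A x hx]
      linarith [F1 x]
    · have hx' : ‖f x‖ < 2 * η ∧ ‖g x‖ < 2 * η := by
        simp only [A, mem_union, Set.mem_ofPred_eq, not_or, not_le] at hx
        exact hx
      have h1 : ρ x ≤ 3 * η := by
        apply max_le
        · have : ‖f1 x‖ ≤ ‖f1 x - f x‖ + ‖f x‖ := by
            calc ‖f1 x‖ = ‖(f1 x - f x) + f x‖ := by congr 1; ring
              _ ≤ _ := norm_add_le _ _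
          linarith [F1 x, hx'.1]
        · rw [div_le_iff₀ (hden x)]
          have h2 : ‖h x‖ ≤ ‖h x - f x * g x‖ + ‖f x * g x‖ := by
            calc ‖h x‖ = ‖(h x - f x * g x) + f x * g x‖ := by congr 1; ring
              _ ≤ _ := norm_add_le _ _
          rw [norm_mul] at h2
          have h3 : ‖f x‖ * ‖g x‖ ≤ 2 * η * ‖g x‖ :=
            mul_le_mul_of_nonneg_right hx'.1.le (norm_nonneg _)
          nlinarith [hδ x, norm_nonneg (g x)]
      calc ‖f' x - f x‖ ≤ ‖f' x‖ + ‖f x‖ := norm_sub_le _ _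
        _ ≤ 5 * η := by rw [hf'n]; linarith [hx'.1]
  · intro x
    by_cases hx : x ∈ A
    · have h1 : g' x - g x = (h x - f1 x * g x) / f1 x := by
        rw [hg', hf'A x hx]
        have := F3 x hx
        field_simp
      rw [h1, norm_div, div_le_iff₀ (norm_pos_iff.2 (F3 x hx))]
      nlinarith [F2 x hx, norm_nonneg (f1 x)]
    · have hx' : ‖f x‖ < 2 * η ∧ ‖g x‖ < 2 * η := by
        simp only [A, mem_union, Set.mem_ofPred_eq, not_or, not_le] at hx
        exact hx
      have h1 : ‖g' x‖ ≤ ‖g x‖ + η / 2 := by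
        rw [hg', norm_div, hf'n, div_le_iff₀ (hρpos x)]
        have : ‖h x‖ / (‖g x‖ + η / 2) ≤ ρ x := le_max_right _ _
        rw [div_le_iff₀ (hden x)] at this
        linarith
      calc ‖g' x - g x‖ ≤ ‖g' x‖ + ‖g x‖ := norm_sub_le _ _
        _ ≤ 5 * η := by linarith [hx'.2]

theorem approx (hd : CoveringDimLE X 1) (f g h : C(X, ℂ)) (η : ℝ) (hη : 0 < η)
    (hδ : ‖h - f * g‖ < η ^ 2 / 4) (δ' : ℝ) (hδ' : 0 < δ') :
    ∃ f' g' : C(X, ℂ), ‖f' - f‖ ≤ 6 * η ∧ ‖g' - g‖ ≤ 6 * η ∧ ‖h - f' * g'‖ < δ' := by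
  obtain ⟨α, hα, hα1, hαη, hαδ, hαs⟩ : ∃ α : ℝ, 0 < α ∧ α ≤ 1 ∧ α ≤ η ∧ α ≤ δ' ∧
      α * (2 + ‖f‖ + ‖g‖) ≤ η ^ 2 / 4 - ‖h - f * g‖ := by
    have hpos : 0 < η ^ 2 / 4 - ‖h - f * g‖ := by linarith
    have hp2 : 0 < 2 + ‖f‖ + ‖g‖ := by positivity
    refine ⟨min (min 1 η) (min δ' ((η ^ 2 / 4 - ‖h - f * g‖) / (2 + ‖f‖ + ‖g‖))), ?_, ?_, ?_, ?_, ?_⟩
    · exact lt_min (lt_min one_pos hη) (lt_min hδ' (div_pos hpos hp2))
    · exact (min_le_left _ _).trans (min_le_left _ _)
    · exact (min_le_left _ _).trans (min_le_right _ _)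
    · exact (min_le_right _ _).trans (min_le_left _ _)
    · rw [← le_div_iff₀ hp2]
      exact (min_le_right _ _).trans (min_le_right _ _)
  obtain ⟨f1, -, hf1'⟩ := exists_nonvanishing hd f α hα
  obtain ⟨g1, hg1, hg1'⟩ := exists_nonvanishing hd g α hα
  obtain ⟨h1, hh1, hh1'⟩ := exists_nonvanishing hd h α hα
  obtain ⟨f', g', hfg, hf', hg'⟩ := key hd f1 g1 h1 hg1 hh1 η hη (by
    intro x
    have e : h1 x - f1 x * g1 x = (h1 x - h x) + (h - f * g) x + (f x - f1 x) * g x +
        f1 x * (g x - g1 x) := by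
      simp only [ContinuousMap.sub_apply, ContinuousMap.mul_apply]
      ring
    have hfn : ‖f1 x‖ ≤ ‖f‖ + α := by
      calc ‖f1 x‖ = ‖f x + (f1 x - f x)‖ := by congr 1; ring
        _ ≤ ‖f x‖ + ‖f1 x - f x‖ := norm_add_le _ _
        _ ≤ ‖f‖ + α := add_le_add (f.norm_coe_le_norm x) (hf1' x).le
    have hgn : ‖g x‖ ≤ ‖g‖ := g.norm_coe_le_norm x
    have a1 : ‖(h1 x - h x)‖ ≤ α := (hh1' x).le
    have a2 : ‖(h - f * g) x‖ ≤ ‖h - f * g‖ := (h - f * g).norm_coe_le_norm x
    have a3 : ‖(f x - f1 x) * g x‖ ≤ α * ‖g‖ := by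
      rw [norm_mul]
      apply mul_le_mul _ hgn (norm_nonneg _) hα.le
      rw [norm_sub_rev]; exact (hf1' x).le
    have a4 : ‖f1 x * (g x - g1 x)‖ ≤ (‖f‖ + α) * α := by
      rw [norm_mul]
      apply mul_le_mul hfn _ (norm_nonneg _) (by positivity)
      rw [norm_sub_rev]; exact (hg1' x).le
    rw [e]
    calc _ ≤ ‖(h1 x - h x)‖ + ‖(h - f * g) x‖ + ‖(f x - f1 x) * g x‖ + ‖f1 x * (g x - g1 x)‖ :=
          norm_add₄_le
      _ ≤ α + ‖h - f * g‖ + α * ‖g‖ + (‖f‖ + α) * α := by linarith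
      _ ≤ η ^ 2 / 4 := by nlinarith)
  refine ⟨f', g', ?_, ?_, ?_⟩
  · rw [ContinuousMap.norm_le _ (by positivity)]
    intro x
    calc ‖(f' - f) x‖ = ‖(f' x - f1 x) + (f1 x - f x)‖ := by
          rw [ContinuousMap.sub_apply]; congr 1; ring
      _ ≤ ‖f' x - f1 x‖ + ‖f1 x - f x‖ := norm_add_le _ _
      _ ≤ 6 * η := by linarith [hf' x, hf1' x]
  · rw [ContinuousMap.norm_le _ (by positivity)]
    intro x
    calc ‖(g' - g) x‖ = ‖(g' x - g1 x) + (g1 x - g x)‖ := by
          rw [ContinuousMap.sub_apply]; congr 1; ring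
      _ ≤ ‖g' x - g1 x‖ + ‖g1 x - g x‖ := norm_add_le _ _
      _ ≤ 6 * η := by linarith [hg' x, hg1' x]
  · rw [hfg, ContinuousMap.norm_lt_iff _ hδ']
    intro x
    calc ‖(h - h1) x‖ = ‖h1 x - h x‖ := by rw [ContinuousMap.sub_apply, norm_sub_rev]
      _ < α := hh1' x
      _ ≤ δ' := hαδ

/-- Let `X` be a compact Hausdorff space of covering dimension at most one. Then multiplication in the complex
algebra `C(X)` is uniformly open; indeed for all `a, b` in `C(X)` and every `ε > 0` the open ball of radius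
`ε ^ 2 / 1600` about `a * b` is contained in the product of the open balls of radius `ε` about `a` and `b`. -/
theorem result {X : Type*} [TopologicalSpace X] [CompactSpace X] [T2Space X] (hd : CoveringDimLE X 1)
    (ε : ℝ) (hε : 0 < ε) (a b : C(X, ℂ)) :
    ball (a * b) (ε ^ 2 / 1600) ⊆ {c | ∃ u ∈ ball a ε, ∃ v ∈ ball b ε, u * v = c} := by
  intro h hh
  rw [mem_ball, dist_eq_norm] at hh
  let η : ℕ → ℝ := fun n => ε / 20 * (1 / 2) ^ n
  have hη : ∀ n, 0 < η n := fun n => by positivity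
  have step : ∀ (n : ℕ) (p : C(X, ℂ) × C(X, ℂ)), ‖h - p.1 * p.2‖ < η n ^ 2 / 4 →
      ∃ q : C(X, ℂ) × C(X, ℂ), ‖q.1 - p.1‖ ≤ 6 * η n ∧ ‖q.2 - p.2‖ ≤ 6 * η n ∧
        ‖h - q.1 * q.2‖ < η (n + 1) ^ 2 / 4 := by
    intro n p hp
    obtain ⟨f', g', h1, h2, h3⟩ := approx hd p.1 p.2 h (η n) (hη n) hp (η (n + 1) ^ 2 / 4)
      (by have := hη (n + 1); positivity)
    exact ⟨(f', g'), h1, h2, h3⟩
  choose! F hF using step
  let s : ℕ → C(X, ℂ) × C(X, ℂ) := fun n => Nat.rec (a, b) (fun n p => F n p) n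
  have hs0 : s 0 = (a, b) := rfl
  have hsn : ∀ n, s (n + 1) = F n (s n) := fun n => rfl
  have hs : ∀ n, ‖h - (s n).1 * (s n).2‖ < η n ^ 2 / 4 := by
    intro n
    induction n with
    | zero =>
      rw [hs0]
      calc ‖h - a * b‖ < ε ^ 2 / 1600 := hh
        _ = η 0 ^ 2 / 4 := by simp only [η, pow_zero, mul_one]; ring
    | succ n ih =>
      rw [hsn]
      exact (hF n (s n) ih).2.2
  have d1 : ∀ n, dist (s n).1 (s (n + 1)).1 ≤ (6 * ε / 20) * (1 / 2) ^ n := by
    intro n
    rw [dist_comm, dist_eq_norm, hsn]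
    calc ‖(F n (s n)).1 - (s n).1‖ ≤ 6 * η n := (hF n (s n) (hs n)).1
      _ = _ := by simp only [η]; ring
  have d2 : ∀ n, dist (s n).2 (s (n + 1)).2 ≤ (6 * ε / 20) * (1 / 2) ^ n := by
    intro n
    rw [dist_comm, dist_eq_norm, hsn]
    calc ‖(F n (s n)).2 - (s n).2‖ ≤ 6 * η n := (hF n (s n) (hs n)).2.1
      _ = _ := by simp only [η]; ring
  have hhalf : (1 / 2 : ℝ) < 1 := by norm_num
  obtain ⟨u, hu⟩ := cauchySeq_tendsto_of_complete
    (cauchySeq_of_le_geometric (1 / 2 : ℝ) (6 * ε / 20) hhalf d1)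
  obtain ⟨v, hv⟩ := cauchySeq_tendsto_of_complete
    (cauchySeq_of_le_geometric (1 / 2 : ℝ) (6 * ε / 20) hhalf d2)
  have hud := dist_le_of_le_geometric_of_tendsto₀ (1 / 2 : ℝ) (6 * ε / 20) hhalf d1 hu
  have hvd := dist_le_of_le_geometric_of_tendsto₀ (1 / 2 : ℝ) (6 * ε / 20) hhalf d2 hv
  rw [hs0] at hud hvd
  refine ⟨u, ?_, v, ?_, ?_⟩
  · rw [mem_ball, dist_comm]
    calc dist a u ≤ 6 * ε / 20 / (1 - 1 / 2) := hud
      _ < ε := by norm_num; linarith
  · rw [mem_ball, dist_comm]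
    calc dist b v ≤ 6 * ε / 20 / (1 - 1 / 2) := hvd
      _ < ε := by norm_num; linarith
  · have h1 : Filter.Tendsto (fun n => (s n).1 * (s n).2) Filter.atTop (𝓝 (u * v)) := hu.mul hv
    have h2 : Filter.Tendsto (fun n => (s n).1 * (s n).2) Filter.atTop (𝓝 h) := by
      rw [tendsto_iff_norm_sub_tendsto_zero]
      have h3 : Filter.Tendsto (fun n => η n ^ 2 / 4) Filter.atTop (𝓝 0) := by
        have h4 : Filter.Tendsto η Filter.atTop (𝓝 0) := by
          have := (tendsto_pow_atTop_nhds_zero_of_lt_one (by norm_num : (0 : ℝ) ≤ 1 / 2) hhalf).const_mul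
            (ε / 20)
          simpa [η] using this
        have := (h4.pow 2).div_const 4
        simpa using this
      refine squeeze_zero (fun n => norm_nonneg _) (fun n => ?_) h3
      rw [norm_sub_rev]
      exact (hs n).le
    exact tendsto_nhds_unique h1 h2

end main

end Pool.Agent.Results.MP_64150f_an.UniformlyOpen
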